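import Mathlib

set_option autoImplicit false

namespace Pool.Agent.Results.MP_2b4a1d_al.NeverZero

open LaurentPolynomial

/-- Artin's relations on the generators `0, …, n-2` (generator `i` is `σ_{i+1}`). -/
def braidRels (n : ℕ) : Set (FreeGroup (Fin (n - 1))) :=
  {r | ∃ i j : Fin (n - 1), (i.1 + 1 = j.1 ∧
      r = .of i * .of j * .of i * (.of j * .of i * .of j)⁻¹) ∨
    (i.1 + 1 < j.1 ∧ r = .of i * .of j * (.of j * .of i)⁻¹)}

/-- The braid group `B_n`. -/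
abbrev Braid (n : ℕ) := PresentedGroup (braidRels n)

/-- `σ_i` for `1 ≤ i ≤ n-1` (other indices never occur below). -/
def σ (n i : ℕ) : Braid n :=
  if h : 1 ≤ i ∧ i < n then PresentedGroup.of ⟨i - 1, by omega⟩ else 1

/-- `σ_{a … b} = σ_a σ_{a+1} ⋯ σ_b`. -/
def up (n a b : ℕ) : Braid n := ((List.range' a (b + 1 - a)).map (σ n)).prod

/-- `σ_{b … a} = σ_b σ_{b-1} ⋯ σ_a`. -/
def down (n b a : ℕ) : Braid n := ((List.range' a (b + 1 - a)).reverse.map (σ n)).prod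

/-- The group algebra `ℤ[q,q⁻¹] B_n`. -/
abbrev Alg (n : ℕ) := MonoidAlgebra ℤ[T;T⁻¹] (Braid n)

noncomputable def q (n : ℕ) : Alg n := algebraMap ℤ[T;T⁻¹] (Alg n) (T 1)

noncomputable def gr (n : ℕ) (g : Braid n) : Alg n := MonoidAlgebra.of ℤ[T;T⁻¹] (Braid n) g

noncomputable def E (n j : ℕ) : Alg n := q n ^ j * gr n (down n j 1)⁻¹ - gr n (up n 1 j)

/-- `Xs n k = X_{k+2}`. -/
noncomputable def Xs (n : ℕ) : ℕ → Alg n
  | 0 => q n * gr n (σ n 1)⁻¹ + 1 - q n - gr n (σ n 1)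
  | k + 1 => E n (k + 2) * Xs n k

noncomputable def X (n k : ℕ) : Alg n := Xs n (k - 2)

noncomputable def F (n k : ℕ) : Alg n := q n ^ (k - 1) * gr n (down n k 1)⁻¹ - gr n (up n 1 k)

noncomputable def G (n k : ℕ) : Alg n :=
  if k = 2 then q n * gr n (σ n 2)⁻¹ + 1 - q n - gr n (σ n 2)
  else q n ^ (k - 1) * gr n (down n k 2)⁻¹ - gr n (up n 2 k)

/-- The two-sided ideal defining `Z_n`. -/
noncomputable def relIdeal (n : ℕ) : TwoSidedIdeal (Alg n) :=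
  TwoSidedIdeal.span {x | ∃ k, 2 ≤ k ∧ k ≤ n - 1 ∧ x = (G n k - F n k) * X n k}

def s : (ZMod 27)ˣ := ⟨2, 14, by decide, by decide⟩

def χ (n : ℕ) : Braid n →* (ZMod 27)ˣ :=
  PresentedGroup.toGroup (f := fun _ => s) (by
    rintro r ⟨i, j, ⟨-, rfl⟩ | ⟨-, rfl⟩⟩ <;> simp)

lemma χσ {n i : ℕ} (h1 : 1 ≤ i) (h2 : i < n) : χ n (σ n i) = s := by
  simp [σ, h1, h2, χ]

noncomputable def ev : ℤ[T;T⁻¹] →+* ZMod 27 := LaurentPolynomial.eval₂ (Int.castRingHom _) 1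

noncomputable def Φ (n : ℕ) : Alg n →+* ZMod 27 :=
  MonoidAlgebra.liftNCRingHom ev ((Units.coeHom _).comp (χ n)) fun _ _ => Commute.all _ _

lemma Φq (n : ℕ) : Φ n (q n) = 1 := by
  simp [Φ, q, ev, MonoidAlgebra.liftNCRingHom]

lemma Φgr (n : ℕ) (g : Braid n) : Φ n (gr n g) = χ n g := by
  simp [Φ, gr, MonoidAlgebra.liftNCRingHom]

lemma sv : ((s : (ZMod 27)ˣ) : ZMod 27) = 2 := rfl
lemma si : ((s⁻¹ : (ZMod 27)ˣ) : ZMod 27) = 14 := rfl

lemma X2 {n : ℕ} (h : 3 ≤ n) : Φ n (Xs n 0) = 12 := by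
  simp only [Xs, map_sub, map_add, map_mul, map_one, Φq, Φgr, map_inv,
    χσ (n := n) (i := 1) le_rfl (by omega), sv, si]
  decide

lemma X3 {n : ℕ} (h : 3 ≤ n) : Φ n (Xs n 1) = 9 := by
  simp [Xs.eq_2, X2 h, E, Φq, Φgr, up, down, List.range', χσ (n := n) (i := 1) le_rfl (by omega),
    χσ (n := n) (i := 2) (by omega) (by omega), sv, si]
  decide

lemma X4 {n : ℕ} (h : 4 ≤ n) (k : ℕ) : Φ n (Xs n (k + 2)) = 0 := by
  induction k with
  | zero =>
    rw [Xs.eq_2]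
    simp [X3 (n := n) (by omega), E, Φq, Φgr, up, down, List.range',
      χσ (n := n) (i := 1) le_rfl (by omega), χσ (n := n) (i := 2) (by omega) (by omega),
      χσ (n := n) (i := 3) (by omega) (by omega), sv, si]
    decide
  | succ k ih => rw [Xs.eq_2, map_mul, ih, mul_zero]

theorem result : ∀ n : ℕ, 3 ≤ n → X n 3 ∉ relIdeal n := by
  intro n hn hx
  have hle : relIdeal n ≤ TwoSidedIdeal.ker (Φ n) := by
    refine TwoSidedIdeal.span_le.2 ?_
    rintro _ ⟨k, hk, hk', rfl⟩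
    rw [SetLike.mem_coe, TwoSidedIdeal.mem_ker, map_mul]
    obtain rfl | rfl | hk4 : k = 2 ∨ k = 3 ∨ 4 ≤ k := by omega
    · simp [X, X2 hn, G, F, Φq, Φgr, up, down, List.range',
        χσ (n := n) (i := 1) le_rfl (by omega), χσ (n := n) (i := 2) (by omega) (by omega), sv, si]
      decide
    · simp [X, X3 hn, G, F, Φq, Φgr, up, down, List.range',
        χσ (n := n) (i := 1) le_rfl (by omega), χσ (n := n) (i := 2) (by omega) (by omega),
        χσ (n := n) (i := 3) (by omega) (by omega), sv, si]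
      decide
    · obtain ⟨j, rfl⟩ : ∃ j, k = j + 2 + 2 := ⟨k - 4, by omega⟩
      rw [X, Nat.add_sub_cancel, X4 (by omega), mul_zero]
  have := (TwoSidedIdeal.mem_ker _).1 (hle hx)
  rw [X, X3 hn] at this
  exact absurd this (by decide)

end Pool.Agent.Results.MP_2b4a1d_al.NeverZero
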